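import Pool.Agent.SBT.MainZ

/-!
MP_175f55_nt, partial result: Lempel-Ziv complexity, with errors, of the digits of `√2` and of all
numbers which generate a field containing an irrational algebraic number.
-/

set_option autoImplicit false

namespace Pool.Agent.Results.MP_175f55_nt.LempelZivField

/-- the first `N` letters of `u` are a product of `k` phrases (with cutting points `p`), each of
which is a single letter or has an earlier occurrence in `u` (overlaps are allowed), as in the
factorisation of Lempel and Ziv (LZ77) -/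
def Phrases (u : ℕ → ℤ) (N k : ℕ) : Prop :=
  ∃ p : ℕ → ℕ, p 0 = 0 ∧ p k = N ∧ ∀ j < k, p j < p (j + 1) ∧
    (p (j + 1) = p j + 1 ∨ ∃ s < p j, ∀ i, p j + i < p (j + 1) → u (s + i) = u (p j + i))

/-- the first `N` letters of `v` differ at `e` places from a word over the alphabet `A` which is a
product of `k` phrases, with `k + e ≤ K` -/
def Describable (A : Set ℤ) (v : ℕ → ℤ) (N : ℕ) (K : ℝ) : Prop :=
  ∃ (u : ℕ → ℤ) (k : ℕ), (∀ i, u i ∈ A) ∧ Phrases u N k ∧
    (k : ℝ) + ((Finset.range N).filter fun i => v i ≠ u i).card ≤ K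

/-- the digits after the point of `y` in base `b` -/
noncomputable def digits (b : ℕ) (y : ℝ) (i : ℕ) : ℤ := ⌊y * (b : ℝ) ^ (i + 1)⌋ % b

/-- the sequence which is `1` at the places of the digit `j` of `y` in base `b` and `0`
elsewhere -/
noncomputable def places (b : ℕ) (y : ℝ) (j : ℕ) (i : ℕ) : ℤ := if digits b y i = j then 1 else 0

/-- the real numbers which in some base `b ≥ 2`, with some `C`, satisfy: for all `N ∈ I` the
first `N` digits are described by at most `C (1 + log N)` phrases and errors -/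
def compressibleNumbers (I : Set ℕ) : Set ℝ :=
  {y | ∃ (b : ℕ) (C : ℝ), 2 ≤ b ∧
    ∀ N ∈ I, Describable (Set.Ico 0 (b : ℤ)) (digits b y) N (C * (1 + Real.log N))}

theorem phrases_iff (u : ℕ → ℤ) (N k : ℕ) : Phrases u N k ↔ ∃ p, SBT.Phr u N k p := Iff.rfl

theorem describable_iff (b : ℕ) (y : ℝ) (N : ℕ) (K : ℝ) :
    Describable (Set.Ico 0 (b : ℤ)) (digits b y) N K ↔ SBT.LZE b y N K := by
  constructor
  · rintro ⟨u, k, h1, ⟨p, h2⟩, h3⟩
    exact ⟨u, k, p, h1, h2, h3⟩
  · rintro ⟨u, k, p, h1, h2, h3⟩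
    exact ⟨u, k, h1, ⟨p, h2⟩, h3⟩

theorem compressible_eq (I : Set ℕ) : compressibleNumbers I =
    {y : ℝ | ∃ (b : ℕ) (C : ℝ), 2 ≤ b ∧ ∀ N ∈ I, SBT.LZE b y N (C * (1 + Real.log N))} := by
  ext y
  simp only [compressibleNumbers, Set.mem_setOf_eq, describable_iff]

theorem not_mem (I : Set ℕ) (α : ℝ) (hα : IsAlgebraic ℚ α)
    (hq : ∀ q : ℚ, α ≠ q)
    (h1 : ∀ (m : ℕ) (x β : Fin m → ℝ),
      (∀ i, x i ∈ IntermediateField.adjoin ℚ (compressibleNumbers I)) →
      (∀ i, IsAlgebraic ℚ (β i)) → LinearIndependent ℚ x → ∑ i, β i * x i = 0 → ∀ i, β i = 0) :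
    α ∉ compressibleNumbers I := by
  intro h2
  have h3 : LinearIndependent ℚ ![(1 : ℝ), α] := by
    rw [LinearIndependent.pair_iff]
    intro s t hst
    by_cases ht : t = 0
    · subst ht
      simp only [zero_smul, add_zero, smul_eq_zero, one_ne_zero, or_false] at hst
      exact ⟨hst, rfl⟩
    · exfalso
      rw [Rat.smul_def, Rat.smul_def, mul_one] at hst
      apply hq (-s / t)
      have ht' : (t : ℝ) ≠ 0 := by exact_mod_cast ht
      push_cast
      field_simp
      linarith
  have h4 := h1 2 ![(1 : ℝ), α] ![α, -1] (by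
      intro i
      fin_cases i
      · exact one_mem _
      · exact IntermediateField.subset_adjoin ℚ _ h2) (by
      intro i
      fin_cases i
      · exact hα
      · exact (isAlgebraic_one).neg) h3 (by
      rw [Fin.sum_univ_two]
      simp) 1
  norm_num at h4

/-- (1) For every infinite set `I` the field generated by the numbers which are compressible
along `I` is linearly disjoint from the real algebraic numbers over `ℚ`.
(2) Let `α` be an irrational real algebraic number (for instance `√2`) and `b ≥ 2` (for instance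
`10`).  For every `K` and all large `N` the first `N` digits of `α` in base `b` need more than
`K log N` phrases and errors.
(3) The same for the sequences of the places of at least two digits of `α`.
(4) The numbers of linear block complexity are compressible along the set of all `N`. -/
theorem result :
    (∀ I : Set ℕ, I.Infinite → ∀ (m : ℕ) (x β : Fin m → ℝ),
      (∀ i, x i ∈ IntermediateField.adjoin ℚ (compressibleNumbers I)) →
      (∀ i, IsAlgebraic ℚ (β i)) → LinearIndependent ℚ x → ∑ i, β i * x i = 0 →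
      ∀ i, β i = 0) ∧
    (∀ (α : ℝ) (b : ℕ) (K : ℝ), IsAlgebraic ℚ α → (∀ q : ℚ, α ≠ q) → 2 ≤ b →
      ∀ᶠ N : ℕ in Filter.atTop,
        ¬ Describable (Set.Ico 0 (b : ℤ)) (digits b α) N (K * Real.log N)) ∧
    (∀ (α : ℝ) (b : ℕ) (K : ℝ), IsAlgebraic ℚ α → (∀ q : ℚ, α ≠ q) → 2 ≤ b →
      ∀ᶠ N : ℕ in Filter.atTop, ∃ i j : ℕ, i < j ∧ j < b ∧
        ¬ Describable {0, 1} (places b α i) N (K * Real.log N) ∧
        ¬ Describable {0, 1} (places b α j) N (K * Real.log N)) ∧
    (∀ (b C : ℕ) (y : ℝ), 2 ≤ b →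
      (∀ n : ℕ, {w : Fin n → ℤ | ∃ m : ℕ, ∀ j : Fin n, w j = digits b y (m + j)}.ncard ≤
        C * (n + 1)) → y ∈ compressibleNumbers Set.univ) := by
  have h1 : ∀ I : Set ℕ, I.Infinite → ∀ (m : ℕ) (x β : Fin m → ℝ),
      (∀ i, x i ∈ IntermediateField.adjoin ℚ (compressibleNumbers I)) →
      (∀ i, IsAlgebraic ℚ (β i)) → LinearIndependent ℚ x → ∑ i, β i * x i = 0 →
      ∀ i, β i = 0 := by
    intro I hI m x β hx
    simp only [compressible_eq] at hx
    exact SBT.ZFA_ I hI m x β hx
  refine ⟨h1, ?_, ?_, ?_⟩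
  · intro α b K hα hq hb
    by_contra hcon
    rw [Filter.not_eventually] at hcon
    have hI : {N : ℕ | Describable (Set.Ico 0 (b : ℤ)) (digits b α) N (K * Real.log N)}.Infinite :=
      Nat.frequently_atTop_iff_infinite.1 (hcon.mono fun N h => not_not.1 h)
    refine not_mem _ α hα hq (h1 _ hI) ⟨b, |K|, hb, ?_⟩
    rintro N ⟨u, k, h2, h3, h4⟩
    refine ⟨u, k, h2, h3, h4.trans ?_⟩
    have h5 : 0 ≤ Real.log (N : ℝ) := Real.log_natCast_nonneg N
    have h6 := le_abs_self K
    have h7 := abs_nonneg K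
    nlinarith
  · intro α b K hα hq hb
    filter_upwards [SBT.ZTD_ α b K hα hq hb] with N hN
    obtain ⟨i, j, h2, h3, h4⟩ := hN
    refine ⟨i, j, h2, h3, ?_, ?_⟩
    · rintro ⟨u, k, h5, ⟨p, h6⟩, h7⟩
      exact absurd h7 (not_le.2 (h4 i (Or.inl rfl) u k p (fun t => by simpa using h5 t) h6))
    · rintro ⟨u, k, h5, ⟨p, h6⟩, h7⟩
      exact absurd h7 (not_le.2 (h4 j (Or.inr rfl) u k p (fun t => by simpa using h5 t) h6))
  · intro b C y hb hy
    have hb0 : (b : ℤ) ≠ 0 := by exact_mod_cast (by omega : b ≠ 0)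
    have hdig : ∀ i, digits b y i ∈ Set.Ico (0 : ℤ) b := fun i =>
      ⟨Int.emod_nonneg _ hb0, Int.emod_lt_of_pos _ (by exact_mod_cast (by omega : 0 < b))⟩
    obtain ⟨C', hC'⟩ := SBT.ZLC_ (digits b y) C (fun n => ⟨by
      have hfin : (Set.pi Set.univ fun _ : Fin n => Set.Ico (0 : ℤ) (b : ℤ)).Finite :=
        Set.Finite.pi fun _ => Set.finite_Ico _ _
      refine hfin.subset ?_
      rintro w ⟨m, hm⟩ j _
      rw [hm j]
      exact hdig _, hy n⟩)
    refine ⟨b, C', hb, fun N _ => ?_⟩
    obtain ⟨k, p, h2, h3⟩ := hC' N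
    refine ⟨digits b y, k, hdig, ⟨p, h2⟩, ?_⟩
    simpa using h3

end Pool.Agent.Results.MP_175f55_nt.LempelZivField
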