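import Pool.Agent.SBT.MainK

/-!
MP_175f55_nt, partial result: `√2` does not lie in the field generated by the real numbers of
linear block complexity (in any integer bases), and two of its digits have indicator sequences of
superlinear complexity.
-/

set_option autoImplicit false

namespace Pool.Agent.Results.MP_175f55_nt.LinearComplexityField

/-- the number of different blocks of `n` consecutive digits after the point in the base `b`
expansion of `y` -/
noncomputable def complexity (b : ℕ) (y : ℝ) (n : ℕ) : ℕ :=
  {w : Fin n → ℤ | ∃ m : ℕ, ∀ j : Fin n, w j = ⌊y * (b : ℝ) ^ (m + 1 + (j : ℕ))⌋ % b}.ncard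

/-- the real numbers which in some base `b ≥ 2` have at most `C (n + 1)` different blocks of `n`
digits for every `n ∈ I`, with some `C`; the base and `C` depend on the number -/
def linearNumbers (I : Set ℕ) : Set ℝ :=
  {y | ∃ b C : ℕ, 2 ≤ b ∧ ∀ n ∈ I, complexity b y n ≤ C * (n + 1)}

/-- the number of different blocks of `n` consecutive terms of the sequence which is `1` at the
places `k ≥ 1` where the `k`-th decimal digit of `√2` is `j` and `0` elsewhere -/
noncomputable def digitWords (j n : ℕ) : ℕ :=
  {w : Fin n → ℕ | ∃ m : ℕ, ∀ t : Fin n,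
    w t = if ⌊Real.sqrt 2 * (10 : ℝ) ^ (m + 1 + (t : ℕ))⌋₊ % 10 = j then 1 else 0}.ncard

/-- (1) For every infinite set `I` of natural numbers the field generated by the numbers of
linear complexity along `I` is linearly disjoint from the real algebraic numbers over `ℚ`:
elements of the field which are linearly independent over `ℚ` are linearly independent over the
real algebraic numbers.
(2) In particular `√2` is not in this field.
(3) For every `C` and all large `n` there are two digits `i < j` such that the sequences of the
places of `i` and of `j` in the decimal expansion of `√2` both have at least `C n` different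
blocks of length `n`. -/
theorem result :
    (∀ I : Set ℕ, I.Infinite → ∀ (m : ℕ) (x β : Fin m → ℝ),
      (∀ i, x i ∈ IntermediateField.adjoin ℚ (linearNumbers I)) → (∀ i, IsAlgebraic ℚ (β i)) →
      LinearIndependent ℚ x → ∑ i, β i * x i = 0 → ∀ i, β i = 0) ∧
    (∀ I : Set ℕ, I.Infinite →
      Real.sqrt 2 ∉ IntermediateField.adjoin ℚ (linearNumbers I)) ∧
    (∀ C : ℕ, ∀ᶠ n : ℕ in Filter.atTop, ∃ i j : ℕ, i < j ∧ j ≤ 9 ∧
      C * n ≤ digitWords i n ∧ C * n ≤ digitWords j n) := by
  have h1 : ∀ I : Set ℕ, I.Infinite → ∀ (m : ℕ) (x β : Fin m → ℝ),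
      (∀ i, x i ∈ IntermediateField.adjoin ℚ (linearNumbers I)) → (∀ i, IsAlgebraic ℚ (β i)) →
      LinearIndependent ℚ x → ∑ i, β i * x i = 0 → ∀ i, β i = 0 := SBT.KFA_
  refine ⟨h1, fun I hI h2 => ?_, SBT.KTD_⟩
  have h3 : LinearIndependent ℚ ![(1 : ℝ), Real.sqrt 2] := by
    rw [LinearIndependent.pair_iff]
    intro s t hst
    by_cases ht : t = 0
    · subst ht
      simp only [zero_smul, add_zero, smul_eq_zero, one_ne_zero, or_false] at hst
      exact ⟨hst, rfl⟩
    · exfalso
      rw [Rat.smul_def, Rat.smul_def, mul_one] at hst
      apply irrational_sqrt_two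
      refine ⟨-s / t, ?_⟩
      have ht' : (t : ℝ) ≠ 0 := by exact_mod_cast ht
      push_cast
      field_simp
      linarith
  have h4 := h1 I hI 2 ![(1 : ℝ), Real.sqrt 2] ![Real.sqrt 2, -1] (by
      intro i
      fin_cases i
      · exact one_mem _
      · exact h2) (by
      intro i
      fin_cases i
      · refine ⟨Polynomial.X ^ 2 - Polynomial.C 2, ?_, ?_⟩
        · exact Polynomial.X_pow_sub_C_ne_zero (by norm_num) _
        · simp
      · exact (isAlgebraic_one).neg) h3 (by
      rw [Fin.sum_univ_two]
      simp) 1
  norm_num at h4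

end Pool.Agent.Results.MP_175f55_nt.LinearComplexityField
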