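import Pool.Agent.Sqrt2Digits.Final

set_option autoImplicit false

/-!
The decimal digits of `√2` (`Sqrt2Digits.digit k = ⌊√2 · 10 ^ k⌋ mod 10`) differ from every
eventually periodic sequence of digits in at least `c √N` of the first `N` places.
-/

namespace Pool.Agent.Results.MP_175f55_nt.PeriodicDistance

/-- For every eventually periodic sequence `w` of decimal digits there is `c > 0` such that, for all
large `N`, at least `c √N` of the decimal digits `d_1, …, d_N` of `√2` satisfy `d_k ≠ w_k`. -/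
theorem result (w : ℕ → ℕ) (hw : ∀ k, w k ≤ 9)
    (hper : ∃ K m : ℕ, 0 < m ∧ ∀ k ≥ K, w (k + m) = w k) :
    ∃ c : ℝ, 0 < c ∧ ∀ᶠ N : ℕ in Filter.atTop,
      c * Real.sqrt N ≤
        (((Finset.Icc 1 N).filter (fun k => ⌊Real.sqrt 2 * (10 : ℝ) ^ k⌋₊ % 10 ≠ w k)).card : ℝ) := by
  obtain ⟨K, m, hm, h⟩ := hper
  exact Sqrt2Digits.main_sqrt hw hm h

end Pool.Agent.Results.MP_175f55_nt.PeriodicDistance
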