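import Pool.Agent.SPD.Final

set_option autoImplicit false

/-!
The decimal digits `d_k = ⌊√2 · 10 ^ k⌋ mod 10` of `√2`: every period `m` is broken at least
`(log N) ^ A` times among the first `N` digits, for every `A` and all large `N`; for `m = 1` this
counts the digit changes.
-/

namespace Pool.Agent.Results.MP_175f55_nt.SuperpolylogChanges

/-- Let `d` be the sequence of decimal digits of `√2`, let `m ≥ 1` and let `A` be any real number.
For all large `N`, at least `(log N) ^ A` of the `m ≤ k < N` satisfy `d_k ≠ d_{k-m}`. -/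
theorem result (d : ℕ → ℕ) (hd : ∀ k, d k = ⌊Real.sqrt 2 * (10 : ℝ) ^ k⌋₊ % 10)
    (m : ℕ) (hm : 0 < m) (A : ℝ) :
    ∀ᶠ N : ℕ in Filter.atTop, Real.log N ^ A ≤
        (((Finset.range N).filter (fun k => m ≤ k ∧ d k ≠ d (k - m))).card : ℝ) := by
  obtain rfl : d = Sqrt2Digits.digit := funext hd
  exact Pool.Agent.SPD.brk_large m hm A

end Pool.Agent.Results.MP_175f55_nt.SuperpolylogChanges
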